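import Mathlib
import Pool.Agent.N870.SQ.Main

/-!
# All moments of the ranks of quadratic twists along the integer parts of smoothly varying functions

`E : y² = x³ + A x + B` is an elliptic curve over `ℚ` with three integer roots, `D₀`, `D₁`, ..., `D_s`
are arbitrary nonzero polynomials with integer coefficients, of any degrees, and `f` is a smoothly
varying function of non-integral index `c > 0`, for instance `f(t) = t ^ c`. `W_n` is the quadratic
twist of `E` by `D₀(⌊f(n)⌋)`, considered over the field `F_n = ℚ(√D₁(⌊f(n)⌋), ..., √D_s(⌊f(n)⌋))`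
(over `ℚ` for `s = 0`). Let `G₁, ..., G_g` be a system of polynomials as in the conjecture of
Schinzel (irreducible, without a fixed prime divisor); they may occur among the factors of the
`D_i`, and `g = 0` is allowed. There is `δ > 0` such that for large `X` there are at least
`κ X / (log X) ^ g` integers `n ≤ X` for which all the prime factors of the values `G_i(⌊f(n)⌋)` are
larger than `X ^ δ` (so that the number of these prime factors is bounded), and all the moments of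
`2 ^ (rank W_n(F_n) + corank of the 2-primary part of Ш(W_n / F_n))` over these `n` are bounded.

The integers `⌊f(n)⌋` are sparse, `⌊f(n)⌋ ≤ x` for about `x ^ (1 / c)` integers `n` when `c > 1`, for
arbitrarily large `c`.
-/

set_option autoImplicit false

namespace Pool.Agent.Results.MP_157626_nt.SequencesWithLevel

open Finset Polynomial Filter Topology

open Pool.Agent.TH841.NF.D (HasDiv crk rk)

/-- `f` is smoothly varying of index `c`: it is infinitely differentiable and positive for large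
arguments, and `t ^ m f⁽ᵐ⁾(t) / f(t) → c (c - 1) ... (c - m + 1)` for every `m`. -/
def SmoothlyVarying (c : ℝ) (f : ℝ → ℝ) : Prop :=
  (∃ t₀ : ℝ, ∀ t > t₀, ContDiffAt ℝ ((⊤ : ℕ∞) : WithTop ℕ∞) f t ∧ 0 < f t) ∧
  ∀ m : ℕ, Tendsto (fun t => t ^ m * iteratedDeriv m f t / f t) atTop (𝓝 (∏ i ∈ range m, (c - i)))

/-- the powers `t ^ c` are smoothly varying -/
theorem smoothlyVarying_rpow (c : ℝ) : SmoothlyVarying c (fun t => t ^ c) := by
  refine ⟨⟨0, fun t ht => ⟨contDiffAt_id.rpow_const_of_ne ht.ne', Real.rpow_pos_of_pos ht _⟩⟩,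
    fun m => ?_⟩
  refine tendsto_const_nhds.congr' ?_
  filter_upwards [eventually_gt_atTop (0 : ℝ)] with t ht
  rw [iteratedDeriv_eq_iterate, Real.iter_deriv_rpow_const, descPochhammer_eval_eq_prod_range,
    Real.rpow_sub ht, Real.rpow_natCast]
  have h1 : t ^ c ≠ 0 := (Real.rpow_pos_of_pos ht _).ne'
  field_simp

/-- the curve `y² = x³ + A x + B` over `F` -/
def EF (A B : ℤ) (F : Type) [Field F] : WeierstrassCurve F := ⟨0, 0, 0, (A : F), (B : F)⟩

/-- the number field `F` is generated by square roots of the integers `d i` -/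
def Gen (F : Type) [Field F] [NumberField F] {s : ℕ} (d : Fin s → ℤ) : Prop :=
  ∃ x : Fin s → F, (∀ i, x i ^ 2 = (d i : F)) ∧
    IntermediateField.adjoin ℚ (Set.range x) = ⊤

open Classical in
/-- the integers `1 ≤ n ≤ X` for which `⌊f(n)⌋` is not a zero of one of the polynomials `D_i`, and
all the prime factors of the integers `G_i(⌊f(n)⌋)` are larger than `y` -/
noncomputable def Par (f : ℝ → ℝ) {s g : ℕ} (D₀ : ℤ[X]) (D : Fin s → ℤ[X]) (G : Fin g → ℤ[X])
    (y : ℝ) (X : ℕ) : Finset ℕ :=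
  (Icc 1 X).filter (fun n : ℕ => (D₀.eval ⌊f n⌋ ≠ 0 ∧ ∀ i, (D i).eval ⌊f n⌋ ≠ 0) ∧
    ∀ i, ∀ p : ℕ, p.Prime → (p : ℤ) ∣ (G i).eval ⌊f n⌋ → y < p)

open Classical in
/-- **Theorem.** Let `f` be a smoothly varying function of index `c > 0`, not an integer,
`y² = (x - e₁) (x - e₂) (x - e₃) = x³ + A x + B` an elliptic curve with integers `e₁`, `e₂`, `e₃`, let
`D₀`, `D₁`, ..., `D_s` be nonzero polynomials with integer coefficients, `a n = ⌊f(n)⌋`,
`F n = ℚ(√D₁(a n), ..., √D_s(a n))` and `W n` the quadratic twist of the curve by `D₀(a n)`, over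
`F n`. Let `G₁, ..., G_g` be pairwise non-associated irreducible polynomials of positive degree,
without a fixed prime divisor. There are `δ > 0` and `κ > 0` such that for every `j` there are `C`
and `X₀` such that for `X ≥ X₀` and the set `P` of the `n ≤ X`, with `a n` not a zero of the `D_i`, for
which all the prime factors of the `G_i(a n)` are larger than `X ^ δ`: the set `P` has at least
`κ X / (log X) ^ g` elements, and with `ρ n = rank W_n(F_n) + corank Ш(W_n / F_n)[2^∞]` the average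
of `2 ^ (j ρ n)` over `P` is at most `C`, and at most the proportion `C / 2 ^ (j m)` of the `n` in
`P` have `ρ n ≥ m`. -/
theorem result (c : ℝ) (hc : 0 < c) (hcn : ∀ m : ℕ, c ≠ m) (f : ℝ → ℝ) (hf : SmoothlyVarying c f)
    (A B e₁ e₂ e₃ : ℤ) (hE : 4 * A ^ 3 + 27 * B ^ 2 ≠ 0)
    (he : ∀ x : ℤ, x ^ 3 + A * x + B = (x - e₁) * (x - e₂) * (x - e₃))
    (s : ℕ) (D₀ : ℤ[X]) (hD₀ : D₀ ≠ 0) (D : Fin s → ℤ[X]) (hD : ∀ i, D i ≠ 0)
    (g : ℕ) (G : Fin g → ℤ[X]) (hG : ∀ i, Irreducible (G i) ∧ 0 < (G i).natDegree)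
    (hG' : ∀ i j, i ≠ j → ¬ Associated (G i) (G j))
    (hfix : ∀ p : ℕ, p.Prime → ∃ m : ℕ, ∀ i, ¬ (p : ℤ) ∣ (G i).eval (m : ℤ)) :
    ∃ δ : ℝ, 0 < δ ∧ ∃ κ : ℝ, 0 < κ ∧ ∀ j : ℕ, ∃ (C : ℝ) (X₀ : ℕ), ∀ X : ℕ, X₀ ≤ X →
      κ * (X / (Real.log X) ^ g) ≤ ((Par f D₀ D G ((X : ℝ) ^ δ) X).card : ℝ) ∧
      ∀ (F : ℕ → Type) [∀ n, Field (F n)] [∀ n, NumberField (F n)],
      (∀ n ∈ Par f D₀ D G ((X : ℝ) ^ δ) X, Gen (F n) (fun i => (D i).eval ⌊f n⌋)) →
      ∀ W : ∀ n, WeierstrassCurve (F n),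
      (∀ n, W n = EF (D₀.eval ⌊f n⌋ ^ 2 * A) (D₀.eval ⌊f n⌋ ^ 3 * B) (F n)) →
      (∀ n ∈ Par f D₀ D G ((X : ℝ) ^ δ) X, BddAbove {q | HasDiv (W n) q}) ∧
      ∑ n ∈ Par f D₀ D G ((X : ℝ) ^ δ) X, ((2 : ℝ) ^ (rk (W n) + crk (W n))) ^ j ≤
        C * (Par f D₀ D G ((X : ℝ) ^ δ) X).card ∧
      ∀ m : ℕ, (((Par f D₀ D G ((X : ℝ) ^ δ) X).filter
        (fun n => m ≤ rk (W n) + crk (W n))).card : ℝ) ≤
        C * (Par f D₀ D G ((X : ℝ) ^ δ) X).card / 2 ^ (j * m) := by
  have hG1 : Pool.Agent.TH841.PT.Irr G := ⟨fun i => (hG i).1, fun i => (hG i).2, hG'⟩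
  have h := Pool.Agent.N870.SQ.main_fl (Pool.Agent.N870.SQ.sv_of c hc hcn f hf) hG1 hfix hE he s
    D₀ hD₀ D hD
  simp only [iteratedDeriv_zero] at h
  obtain ⟨δ, hδ, κ, hκ, h1⟩ := h
  refine ⟨δ, hδ, κ, hκ, fun j => ?_⟩
  obtain ⟨C, X₀, h2⟩ := h1 j
  exact ⟨C, X₀, fun X hX => h2 X hX _ rfl⟩

end Pool.Agent.Results.MP_157626_nt.SequencesWithLevel
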