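import Mathlib
import Pool.Agent.N870.RG.Tails

/-!
# The tails of the rank in one-parameter families decay faster than any exponential

`W_t : y² = x (x - D(t) u₀(t)) (x - D(t) u₁(t))`, where `u₀`, `u₁` and `u₂ = u₀ - u₁` are
polynomials with integer coefficients, `u_k` being a constant times a product of `n_k` irreducible
polynomials, these `n = n₀ + n₁ + n₂` irreducible polynomials being pairwise different, and `D` is
any nonzero polynomial not divisible by one of them. Assume `2 n_k < n` for `k = 0, 1, 2`; there is no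
condition on the places of split multiplicative reduction.

For every `R` there is `C` such that for every `m` the proportion of the `t` for which the rank of
`W_t(ℚ)` plus the corank of the 2-primary part of `Ш(W_t)` is at least `m` is at most `C R ^ (-m)`,
in every interval `(N, N + M]` with `|N| ≤ M ^ L` and `M` large in terms of `m`.

The engine is the project PM of helper841 (all the moments outside of a set of density zero).
-/

set_option autoImplicit false

namespace Pool.Agent.Results.MP_157626_nt.SuperexponentialTails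

open Finset Polynomial

open Pool.Agent.TH841.SH.D (HasDiv rk)

/-- the curve `y² = x (x - A) (x - B)` over `ℚ` -/
def E (A B : ℤ) : WeierstrassCurve ℚ := ⟨0, -((A : ℚ) + B), 0, (A : ℚ) * B, 0⟩

/-- `u_k = a_k ∏ f_{k,i}` -/
noncomputable def u {n : Fin 3 → ℕ} (a : Fin 3 → ℤ) (f : ∀ k : Fin 3, Fin (n k) → ℤ[X])
    (k : Fin 3) : ℤ[X] := C (a k) * ∏ i, f k i

/-- the fibre at `t` -/
noncomputable def fib {n : Fin 3 → ℕ} (D : ℤ[X]) (a : Fin 3 → ℤ)
    (f : ∀ k : Fin 3, Fin (n k) → ℤ[X]) (t : ℤ) : WeierstrassCurve ℚ :=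
  E ((D * u a f 0).eval t) ((D * u a f 1).eval t)

open Classical in
/-- the integers `t` with `N < t ≤ N + M` such that the sum of the rank of the fibre at `t` and of
the corank of the 2-primary part of its Tate-Shafarevich group is at least `m` -/
noncomputable def Large {n : Fin 3 → ℕ} (D : ℤ[X]) (a : Fin 3 → ℤ)
    (f : ∀ k : Fin 3, Fin (n k) → ℤ[X]) (m : ℕ) (N : ℤ) (M : ℕ) : Finset ℤ :=
  (Ioc N (N + M)).filter (fun t => ∃ q : ℕ, HasDiv (fib D a f t) q ∧ m ≤ rk (fib D a f t) + q)

/-- **Theorem.** Let `u_k = a_k ∏_{i < n_k} f_{k,i}`, `k = 0, 1, 2`, be polynomials with integer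
coefficients with `u₀ - u₁ = u₂`, where `a_k ≠ 0` and the `n₀ + n₁ + n₂` polynomials `f_{k,i}` are
irreducible of positive degree and pairwise non-associated, with `2 n_k < n₀ + n₁ + n₂` for all `k`,
and let `D ≠ 0` be a polynomial with integer coefficients not divisible by any `f_{k,i}`. For all
`R > 0` and `L` there is `C` such that for every `m` there is `M₀` such that for all `M ≥ M₀` and
`|N| ≤ M ^ L` at most `C M / R ^ m` of the integers `t` with `N < t ≤ N + M` have
`rank W_t(ℚ) + corank Ш(W_t)[2^∞] ≥ m`, where `W_t : y² = x (x - D(t) u₀(t)) (x - D(t) u₁(t))`. -/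
theorem result (n : Fin 3 → ℕ) (a : Fin 3 → ℤ) (f : ∀ k : Fin 3, Fin (n k) → ℤ[X]) (D : ℤ[X])
    (ha : ∀ k, a k ≠ 0) (hf : ∀ k i, Irreducible (f k i) ∧ 0 < (f k i).natDegree)
    (hf' : ∀ k i l j, (⟨k, i⟩ : Σ k : Fin 3, Fin (n k)) ≠ ⟨l, j⟩ → ¬ Associated (f k i) (f l j))
    (hu : u a f 0 - u a f 1 = u a f 2) (hD : D ≠ 0) (hDf : ∀ k i, ¬ f k i ∣ D)
    (hn : ∀ k, 2 * n k < n 0 + n 1 + n 2) (R : ℝ) (hR : 0 < R) (L : ℕ) :
    ∃ C : ℝ, ∀ m : ℕ, ∃ M₀ : ℕ, ∀ (N : ℤ) (M : ℕ), M₀ ≤ M → |N| ≤ (M : ℤ) ^ L →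
      ((Large D a f m N M).card : ℝ) ≤ C * M / R ^ m := by
  have hirr : Pool.Agent.TH841.PT.Irr (Pool.Agent.TH841.TR.fp f) :=
    ⟨fun x => (hf x.1 x.2).1, fun x => (hf x.1 x.2).2, fun x y hxy => hf' x.1 x.2 y.1 y.2 hxy⟩
  exact Pool.Agent.TH841.PM.N870.tails a f ha hirr hu D hD hDf hn R hR L

end Pool.Agent.Results.MP_157626_nt.SuperexponentialTails
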