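import Pool.Agent.N637.SLM.AN8

/-!
# The supremum of the ranks of the quadratic twists of infinitely many curves with torsion `ℤ/2 × ℤ/4` by the same integer

For coprime integers `a` odd, `c ≠ 0` even and a fundamental discriminant `-n < 0` let
`E_n(a, c) : y² = x (x - a² m) (x + (c² - a²) m)`, `m = -n` or `-n / 4`, be the quadratic twist by `-n` of
`y² = x (x + a²) (x + c²)`. (The torsion subgroup of these curves contains `ℤ/2 × ℤ/4`. Classically all the elliptic
curves over `ℚ` with this property are the `y² = x (x + a²) (x + c²)`, `a` and `c` coprime; if `a` and `c` are both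
odd, this curve is isogenous to the twist by `-1` of one of ours. `(3, 4)` is the modular curve `X_0(21)`, `(1, 4)` is
isogenous to `X_0(15)`.) Let `R(n)` be the `4`-rank of the class group of `ℚ(√-n)`, and let
`w = w(a, c, n)` be `0` if `(a, c)` is admissible for `n` (the odd primes dividing `a c` are inert in `ℚ(√-n)`, `n` is
a nonresidue modulo the primes dividing `c² - a²`, and `n ≢ 7 mod 8` if `8 ∣ c`, `n = 3 mod 8` if `c = 2 mod 4`), and
`w = 4 ω + 5` otherwise, `ω` the number of the primes dividing `2 a c (c² - a²)`.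

Theorem. Let `n` run through ALL the negative fundamental discriminants `-n ≠ -4`.

* `rank E_n(a, c) + dim Ш(E_n(a, c))[2] ≤ 2 R(n) + w(a, c, n)` for ALL `n` and ALL pairs `(a, c)`.
* `R(n) = r` for the natural density `fk r` of all `n` (the law of Fouvry and Klüners, proved here also for the
  moments). Therefore, for every `r`, the `n` such that for SOME of the infinitely many `(a, c)` the left side is
  larger than `2 r + w(a, c, n)` have upper density at most `4 / 2 ^ (r + 1) ^ 2`.
* Let `top n ≤ 2 R(n)` be the supremum over ALL `(a, c)` of `rank E_n(a, c) - w(a, c, n)` (or `0`). Its upper average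
  over all `n` is at most `3/2 + 25 η / 36 < 1.701`, `η = ∏ (1 - 2 ^ (-l)) = 0.2888`; the upper average of `2 ^ top` is
  at most `5`, and all the averages of `2 ^ (K top)` are bounded by explicit finite numbers.
* For admissible `(a, c)`: `R(n) ≤ rank + dim Ш[2] ≤ 2 R(n)`, and `R(n) = 0` (this holds for the density `η` of all
  `n`) if and only if `E_n(a, c)(ℚ)` is finite and `Ш(E_n(a, c)/ℚ)[2^∞] = 0`. Every `(a, c)` is admissible for a positive
  proportion of the `n`.

So in the twist number `n` the ranks of all the curves of this type with a bounded number of bad primes are bounded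
on average over `n`, with all exponential moments, uniformly in the curves. Before only finite sets of curves were
treated, without averages: `MP_9e6228_nt.AllTwistsTwoFour` (helper873 and others: odd `n`, `2 ω + 2` in place of `w`)
and, for the `n` for which all the curves of the set are admissible, `SimultaneousTwists` of helper873 and
helpers 97, 136, 273, 368, 519, 603, 614, 615, 700, 747, 756, 767, 887, 891, 966, formerly on this page; projects
SLX, SLK, SLM, SLA of helper637 and others, `MP_e23604_nt.JointSelmerLaw`, `MP_788af2_nt.AverageRankTwists`.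

Proof. For admissible pairs this is the descent of `JointSelmerLaw`. In general the Selmer group is bounded by the
number of the pairs of divisors of the good part `W` of `m` with the local conditions at the primes dividing `W`, which
are those of the points of order two; this is a product of two groups, the kernels of a Rédei matrix and of its
transpose up to a matrix of rank one (quadratic reciprocity). The moments of `2 ^ R(n)` over all `n` are bounded since
a subgroup of index at most `144` of the group of the norms dividing `n` consists of 2-Selmer classes of the twists of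
`y² = x (x - 1) (x + 3)`, whose moments are bounded (library of helper870).
-/

set_option autoImplicit false

open NumberField Filter Topology Finset

namespace Pool.Agent.Results.MP_157626_nt.SupremumOfRanks

open scoped Classical

open Pool.Agent.TH841.SH.D (Sha)

/-- `-n` is a fundamental discriminant. -/
def FundNeg (n : ℕ) : Prop := (Squarefree n ∧ n % 4 = 3) ∨
  ∃ m : ℕ, n = 4 * m ∧ Squarefree m ∧ (m % 4 = 1 ∨ m % 4 = 2)

/-- `-n` is a fundamental discriminant and not `-4`. -/
def All (n : ℕ) : Prop := FundNeg n ∧ n ≠ 4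

/-- The parameters of the curves: `a` odd, `c` even and not `0`, coprime. -/
def Curve (a c : ℤ) : Prop := a % 2 = 1 ∧ c % 2 = 0 ∧ c ≠ 0 ∧ IsCoprime a c

/-- `(a, c)` is admissible for `n`. -/
def Adm (a c : ℤ) (n : ℕ) : Prop :=
  (∀ p : ℕ, p.Prime → p ≠ 2 → (p : ℤ) ∣ a * c → jacobiSym (-(n : ℤ)) p = -1) ∧
  (∀ p : ℕ, p.Prime → (p : ℤ) ∣ c ^ 2 - a ^ 2 → jacobiSym (n : ℤ) p = -1) ∧
  (c % 8 = 4 ∨ (c % 8 = 0 ∧ n % 8 ≠ 7) ∨ (c % 4 = 2 ∧ n % 8 = 3))

/-- The squarefree integer `m n` with `ℚ(√(m n)) = ℚ(√-n)`. -/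
def m (n : ℕ) : ℤ := if n % 2 = 1 then -(n : ℤ) else -((n / 4 : ℕ) : ℤ)

/-- The quadratic twist by `-n` of the curve with the parameters `a`, `c`: the curve
`y² = x (x - a² m) (x + (c² - a²) m)`, `m = m n`. -/
def E (a c : ℤ) (n : ℕ) : WeierstrassCurve ℚ :=
  ⟨0, ((c : ℚ) ^ 2 - 2 * (a : ℚ) ^ 2) * (m n : ℚ), 0,
    -((a : ℚ) ^ 2 * ((c : ℚ) ^ 2 - (a : ℚ) ^ 2) * (m n : ℚ) ^ 2), 0⟩

/-- The rank. -/
noncomputable def rank (W : WeierstrassCurve ℚ) : ℕ := Module.finrank ℤ W.toAffine.Point

/-- The number `2 ^ rank * #Ш[2]`. -/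
noncomputable def S (W : WeierstrassCurve ℚ) : ℝ :=
  (2 : ℝ) ^ rank W * (Nat.card {x : Sha W // 2 • x = 0} : ℝ)

/-- Finitely many rational points and trivial `Ш[2^∞]`. -/
def Triv (W : WeierstrassCurve ℚ) : Prop := Finite W.toAffine.Point ∧
  ∀ (l : ℕ) (x : Sha W), (2 ^ l : ℕ) • x = 0 → x = 0

/-- `K` is the quadratic field `ℚ(√-n)`. -/
def IsQuad (n : ℕ) (K : Type) [Field K] [NumberField K] : Prop :=
  Module.finrank ℚ K = 2 ∧ ∃ s : K, s ^ 2 = (m n : K)

/-- The 4-rank of the class group of `K` is `r`: `#Cl(K)[4] = 2 ^ r * #Cl(K)[2]`. -/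
def FourRank (K : Type) [Field K] [NumberField K] (r : ℕ) : Prop :=
  Nat.card {c : ClassGroup (𝓞 K) // c ^ 4 = 1} =
    2 ^ r * Nat.card {c : ClassGroup (𝓞 K) // c ^ 2 = 1}

/-- The number of the primes dividing `2 a c (c² - a²)`. -/
def omega (a c : ℤ) : ℕ := (2 * a * c * (c ^ 2 - a ^ 2)).natAbs.primeFactors.card

/-- The number `w(a, c, n)`. -/
noncomputable def w (a c : ℤ) (n : ℕ) : ℕ := if Adm a c n then 0 else 4 * omega a c + 5

/-- The supremum over all the curves of `rank - w` (subtraction of natural numbers). -/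
noncomputable def top (n : ℕ) : ℕ :=
  sSup {k : ℕ | ∃ a c : ℤ, Curve a c ∧ k = rank (E a c n) - w a c n}

/-- The order of the group `GL_r` over the field with two elements. -/
def gl (r : ℕ) : ℕ := ∏ i ∈ range r, (2 ^ r - 2 ^ i)

/-- The law of Fouvry and Klüners of the 4-rank. -/
noncomputable def fk (r : ℕ) : ℝ := (∏' l : ℕ, (1 - (1 / 2 : ℝ) ^ (r + 1 + l))) / (gl r : ℝ)

/-- `η = (1 - 1/2) (1 - 1/4) (1 - 1/8) ⋯` -/
noncomputable def eta : ℝ := ∏' i : ℕ, (1 - (1 / 2 : ℝ) ^ (i + 1))

/-- The number of the `n ≤ X` with the property `Q`. -/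
noncomputable def count (Q : ℕ → Prop) (X : ℕ) : ℕ := ((Icc 1 X).filter fun n => Q n).card

/-- The natural density of `Q` in the family `F` is `δ`. -/
def Density (F Q : ℕ → Prop) (δ : ℝ) : Prop :=
  Tendsto (fun X : ℕ => (count (fun n => F n ∧ Q n) X : ℝ) / (count F X : ℝ)) atTop (𝓝 δ)

/-- The upper density of `Q` in the family `F` is at most `δ`. -/
def UpperDensity (F Q : ℕ → Prop) (δ : ℝ) : Prop := ∀ ε : ℝ, 0 < ε → ∀ᶠ X : ℕ in atTop,
  (count (fun n => F n ∧ Q n) X : ℝ) ≤ (δ + ε) * count F X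

/-- The average of `g` over the members `n ≤ X` of the family `F`. -/
noncomputable def avg (F : ℕ → Prop) (g : ℕ → ℝ) (X : ℕ) : ℝ :=
  (∑ n ∈ (Icc 1 X).filter (fun n => F n), g n) / (count F X : ℝ)

/-- The upper average of `g` over the family `F` is at most `L`. -/
def UpperMean (F : ℕ → Prop) (g : ℕ → ℝ) (L : ℝ) : Prop :=
  ∀ ε : ℝ, 0 < ε → ∀ᶠ X : ℕ in atTop, avg F g X ≤ L + ε

/-- **Main theorem.** `R n` is the 4-rank of the class group of `ℚ(√-n)`. -/
theorem result : (0.2887 < eta ∧ eta < 0.2889) ∧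
    (∀ a c : ℤ, Curve a c → ∃ δ : ℝ, 0 < δ ∧ ∀ᶠ X : ℕ in atTop,
      δ * X ≤ (count (fun n => All n ∧ Adm a c n) X : ℝ)) ∧
    ∃ R : ℕ → ℕ,
    (∀ n : ℕ, All n →
      (∀ (K : Type) [Field K] [NumberField K], IsQuad n K → FourRank K (R n)) ∧
      ∀ a c : ℤ, Curve a c → AddGroup.FG (E a c n).toAffine.Point ∧
        Finite {x : Sha (E a c n) // 2 • x = 0} ∧ S (E a c n) ≤ 2 ^ w a c n * 4 ^ R n ∧
        (Adm a c n → (2 : ℝ) ^ R n ≤ S (E a c n) ∧ (R n = 0 ↔ Triv (E a c n)))) ∧
    (∀ r : ℕ, Density All (fun n => R n = r) (fk r)) ∧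
    (∀ r : ℕ, UpperDensity All (fun n => ∃ a c : ℤ, Curve a c ∧
      2 ^ w a c n * 4 ^ r < S (E a c n)) (4 / 2 ^ (r + 1) ^ 2)) ∧
    (∀ n : ℕ, All n → (∀ a c : ℤ, Curve a c → rank (E a c n) ≤ top n + w a c n) ∧
      top n ≤ 2 * R n) ∧
    UpperMean All (fun n => (top n : ℝ)) (3 / 2 + 25 / 36 * eta) ∧
    UpperMean All (fun n => (2 : ℝ) ^ top n) 5 ∧
    ∀ K : ℕ, Summable (fun r => fk r * 4 ^ (K * r)) ∧
      UpperMean All (fun n => (2 : ℝ) ^ (K * top n)) (∑' r, fk r * 4 ^ (K * r)) :=
  Pool.Agent.N637.SLM.AN.main Pool.Agent.N637.SLM.AN.hx1 Pool.Agent.N637.SLM.AN.hx2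
    Pool.Agent.N637.SLM.AN.hx3

end Pool.Agent.Results.MP_157626_nt.SupremumOfRanks
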