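import Pool.Agent.N869.GK.Z.Max

/-!
# Universal bounds for the ranks of several families of twists, for almost every conductor

Let `E_1, …, E_m` be any elliptic curves over `ℚ` with full rational 2-torsion and without a rational cyclic
isogeny of degree four (`y² = (x - e 0) (x - e 1) (x - e 2)`, no product `(e i - e j) (e i - e l)` a square;
this is the general case of full 2-torsion), without any condition on complex multiplication, modularity,
the rank or the parity, such that the differences of the roots of different curves do not agree modulo squares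
(for example different positive twists of one curve, or unrelated curves). For a squarefree number `f` prime to
the bad primes we consider the twists `E_k^{d_T}`, `d_T = ∏_{i ∈ T} d_i`, by all the products of `n` divisors
`d_1, …, d_n` of `f` (in the principal class: squares in `ℝ` and in `ℚ_p` for the bad `p`; independent modulo
squares): `m (2 ^ n - 1)` curves over `ℚ` at the same time, and the curves `E_k` over the totally real fields
`F = ℚ(√d_1, …, √d_n)`.

The boundedness of the ranks is proved with universal constants, outside a small proportion of the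
tuples, for ALMOST EVERY SINGLE `f` (natural density one), for all the curves and all the products at once.
Put `M = m (2 ^ n - 1)`, the number of the curves over `ℚ`:

* (upper bound) if `2 M / 2 ^ (B (B + 1) / 2) < ε` (so `B` is about `√(2 log₂ (2 M / ε))`; it does not depend on the
  curves), then for almost all `f` for all but a proportion `ε` of the tuples ALL the `M` ranks are at most `B`
  (together with the dimension of `Ш[2]`), and `rank E_k(F) ≤ rank E_k(ℚ) + (2 ^ n - 1) B` for all `k`, and if the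
  2-Selmer rank of `E_k` is `r` then `rank E_k(F) + corank Ш(E_k/F)[2^∞] ≤ r + (2 ^ n - 1) B`;
* (the bound is of the right size for the 2-Selmer ranks) if `exp(-κ M / 2 ^ ((B + 1) (B + 2) / 2)) < ε`, then for
  almost all `f` for all but a proportion `ε` of the tuples the rank plus the dimension of `Ш[2]` of SOME of the
  `M` curves is larger than `B`: the largest of the `M` 2-Selmer ranks is `√(2 log₂ M) + O(1)`;
* more precisely, for every `B` the proportions of the tuples with these two properties are at least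
  `q - δ` and `1 - q - δ`, `q = ∏_k cum(r_k, B) ^ (2 ^ n - 1)`: the limit law of the largest 2-Selmer rank; here
  `cum(r, B)` is the probability that a random variable with the limit law of the 2-Selmer ranks of the
  parity of `r` is at most `B`; `κ / 2 ^ ((B + 1) (B + 2) / 2) ≤ 1 - cum(r, B) ≤ 2 / 2 ^ (B (B + 1) / 2)`;
  for example `cum(r, 2) > 0.97` for even `r`.

In the averages over all `d` (Heath-Brown, Swinnerton-Dyer, Kane, Smith) only one twist of one curve is
considered, and the divisors of `f` are a thin set: for almost all `f ≤ X` there are about `(log X)^(log 2)` of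
them, and the proportions above are the averages over this set, for every single `f`.

Proof. The 2-Selmer groups of the twists are contained in the kernels of matrices over `𝔽₂` given by the quadratic
symbols between the primes dividing the twist and their classes in a finite group; first and second
moments over random colourings of the primes dividing `f`, boxes of large primes, the large sieve for
quadratic symbols, all the moments of the numbers of solutions for all the systems at once, and an
inversion of the moments with given parity, once more for the exact law; the tail of the limit law (helper372);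
from the twists to the field: restriction and corestriction for cocycles (`Pool/Agent/N869/GK`; parts by helpers 3, 7, 9, 19, 27,
42, 49, 55, 67, 91, 128, 163, 170, 195, 199, 221, 247, 263, 265, 271, 273, 286, 300, 306, 314, 340, 342, 344,
364, 372, 383, 386, 391, 395, 401, 413, 434, 454, 475, 478, 488, 495, 514, 527, 558, 572, 588, 592, 595, 603,
617, 655, 661, 690, 693, 700, 701, 713, 723, 803, 814, 833, 835, 853, 869, 891, 901, 933, 954; the
passage to the field: helpers 841, 723 and others).
-/

set_option autoImplicit false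

namespace Pool.Agent.Results.MP_157626_nt.UniversalBounds

open Finset
open Pool.Agent.N869.GK.Z (E tw Kane Apart rank Sha SelRank SelRankLe Conductor Disc Independent
  IsMultiquadratic AlmostAll kappa law)
open Pool.Agent.TH841.NF.D (HasDiv)

/-- The `n`-tuples of divisors of `f` in the principal class, independent modulo squares. -/
def tuples (N n f : ℕ) : Set (Fin n → ℕ) :=
  {d | (∀ i, d i ∣ f ∧ Disc N (d i)) ∧ Independent d}

/-- The ranks are bounded by `B`: for all the curves `E_k` and all `T ≠ ∅` the twist by `d_T = ∏_{i ∈ T} d_i`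
has rank at most `B`, also together with the dimension of `Ш[2]`; over the field `F = ℚ(√d_1, …, √d_n)` the rank
is at most `rank E_k(ℚ) + (2 ^ n - 1) B`, and the sum of the rank and of the corank of `Ш[2^∞]` is at most
`r + (2 ^ n - 1) B`, `r` the 2-Selmer rank of `E_k/ℚ`. -/
structure Bounded {m n : ℕ} (e : Fin m → Fin 3 → ℤ) (B : ℕ) (d : Fin n → ℕ) : Prop where
  rank_le : ∀ k, ∀ T : Finset (Fin n), T.Nonempty → rank ℚ (tw (∏ i ∈ T, (d i : ℤ)) (e k)) ≤ B
  sha_le : ∀ k, ∀ T : Finset (Fin n), T.Nonempty → SelRankLe (tw (∏ i ∈ T, (d i : ℤ)) (e k)) B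
  field : ∀ k, ∀ (F : Type) [Field F] [NumberField F], IsMultiquadratic d F →
    rank F (e k) ≤ rank ℚ (e k) + (2 ^ n - 1) * B
  corank : ∀ k r, SelRank (e k) r → ∀ (F : Type) [Field F] [NumberField F], IsMultiquadratic d F →
    ∀ q : ℕ, HasDiv (E (e k) F) q → rank F (e k) + q ≤ r + (2 ^ n - 1) * B

/-- The bound `B` is exceeded: for some of the curves `E_k` and some `T ≠ ∅` the twist by `d_T` has the 2-Selmer
rank `j > B`, that is, `2 ^ rank * #Ш[2] = 2 ^ j`. -/
def Exceeded {m n : ℕ} (e : Fin m → Fin 3 → ℤ) (B : ℕ) (d : Fin n → ℕ) : Prop :=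
  ∃ k, ∃ T : Finset (Fin n), T.Nonempty ∧ ∃ j, B < j ∧ SelRank (tw (∏ i ∈ T, (d i : ℤ)) (e k)) j

/-- There are tuples, finitely many, and the proportion of those with the property `P` is at least `q`. -/
def AtLeast (N : ℕ) {n : ℕ} (P : (Fin n → ℕ) → Prop) (q : ℝ) (f : ℕ) : Prop :=
  (tuples N n f).Finite ∧ 0 < (tuples N n f).ncard ∧
    q ≤ ({d ∈ tuples N n f | P d}.ncard : ℝ) / ((tuples N n f).ncard : ℝ)

/-- `∑ law j` over the `j ≤ B` with the parity of `r`. -/
noncomputable def cum (r B : ℕ) : ℝ := ∑ j ∈ (range (B + 1)).filter (fun j => j % 2 = r % 2), law j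

section proof

open Pool.Agent.N869.GK
open Pool.Agent.N869.GK.H (KC rg kc_bd)
open scoped Classical

lemma cum_eq (r B : ℕ) : cum r B = KC r B := rfl

lemma tuples_eq (N n f : ℕ) : tuples N n f = Z.fam N false n f := by
  ext d
  constructor
  · rintro ⟨h1, h2⟩
    exact ⟨h1, h2, fun h => absurd h (by decide)⟩
  · rintro ⟨h1, h2, -⟩
    exact ⟨h1, h2⟩

lemma bounded_of {N m n : ℕ} {e : Fin m → Fin 3 → ℤ} (he : ∀ k, Kane N (e k)) {B : ℕ}
    {d : Fin n → ℕ} (hd : ∀ i, 0 < d i)
    (h : Z.Sml e (fun _ _ => B) ((univ : Finset (Finset (Fin n))).erase ∅) d) : Bounded e B d := by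
  have hne : ∀ T : Finset (Fin n), ∏ i ∈ T, (d i : ℤ) ≠ 0 := fun T =>
    Finset.prod_ne_zero_iff.2 fun i _ => by exact_mod_cast (hd i).ne'
  have hs : ∀ k, ∀ T : Finset (Fin n), T.Nonempty →
      SelRankLe (tw (∏ i ∈ T, (d i : ℤ)) (e k)) B := fun k T hT =>
    Z.selrankle (he k) (hne T) (h T (mem_erase.2 ⟨nonempty_iff_ne_empty.1 hT, mem_univ _⟩) k)
  exact
    { rank_le := fun k T hT => Z.rank_le (hs k T hT)
      sha_le := hs
      field := fun k F _ _ hF => Z.rank_field (he k) hd (hs k) F hF
      corank := fun k r hr F _ _ hF q hq => Z.corank_field (he k) hd hr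
        (fun T hT => h T (mem_erase.2 ⟨nonempty_iff_ne_empty.1 hT, mem_univ _⟩) k) F hF q hq }

lemma card_erase (n : ℕ) : ((univ : Finset (Finset (Fin n))).erase ∅).card = 2 ^ n - 1 := by
  rw [Finset.card_erase_of_mem (Finset.mem_univ _), Finset.card_univ, Fintype.card_finset,
    Fintype.card_fin]

theorem main {N : ℕ} (hN : 0 < N) {m : ℕ} {e : Fin m → Fin 3 → ℤ} (he : ∀ k, Kane N (e k))
    (ha : ∀ k k', k ≠ k' → Apart (e k) (e k')) {r : Fin m → ℕ} (hr : ∀ k, SelRank (e k) (r k))
    (n B : ℕ) {δ : ℝ} (hδ : 0 < δ) :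
    AlmostAll (Conductor N) (AtLeast N (n := n) (Bounded e B)
      ((∏ k, cum (r k) B) ^ (2 ^ n - 1) - δ)) := by
  have key := Z.gen hN he hr ha false n (fun h => absurd h (by decide))
    ((univ : Finset (Finset (Fin n))).erase ∅)
    (fun T hT => Finset.nonempty_iff_ne_empty.2 (Finset.ne_of_mem_erase hT)) (fun _ _ => B) hδ
  rw [prod_const, card_erase] at key
  refine key.mono fun f hf h => ?_
  obtain ⟨h1, h2, h3⟩ := h.mono (Q := Bounded e B) fun x hx h => bounded_of he
    (fun i => Z.fam_pos hf hx i) h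
  rw [← tuples_eq] at h1 h2 h3
  exact ⟨h1, h2, h3⟩

/-- the second half -/
theorem main' {N : ℕ} (hN : 0 < N) {m : ℕ} {e : Fin m → Fin 3 → ℤ} (he : ∀ k, Kane N (e k))
    (ha : ∀ k k', k ≠ k' → Apart (e k) (e k')) {r : Fin m → ℕ} (hr : ∀ k, SelRank (e k) (r k))
    (n B : ℕ) {δ : ℝ} (hδ : 0 < δ) :
    AlmostAll (Conductor N) (AtLeast N (n := n) (Exceeded e B)
      (1 - (∏ k, cum (r k) B) ^ (2 ^ n - 1) - δ)) := by
  have key := Z.law_big hN he hr ha false n (fun h => absurd h (by decide))
    ((univ : Finset (Finset (Fin n))).erase ∅)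
    (fun T hT => Finset.nonempty_iff_ne_empty.2 (Finset.ne_of_mem_erase hT)) B hδ
  rw [card_erase] at key
  refine key.mono fun f hf h => ?_
  obtain ⟨h1, h2, h3⟩ := h.mono (Q := Exceeded e B) fun x hx h => by
    obtain ⟨k, T, hT, j, hj, h⟩ := h
    exact ⟨k, T, nonempty_iff_ne_empty.2 (ne_of_mem_erase hT), j, hj, h⟩
  rw [← tuples_eq] at h1 h2 h3
  exact ⟨h1, h2, h3⟩

lemma cum_bd (r B : ℕ) : 0 ≤ cum r B ∧ cum r B ≤ 1 := kc_bd r B

lemma cum_tail (r B : ℕ) : 1 - 2 / 2 ^ (B * (B + 1) / 2) ≤ cum r B := Z.kc_tail r B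

lemma prod_ge {m : ℕ} (r : Fin m → ℕ) (n B : ℕ) :
    1 - (m * (2 ^ n - 1) : ℕ) * (2 / 2 ^ (B * (B + 1) / 2) : ℝ) ≤
      (∏ k, cum (r k) B) ^ (2 ^ n - 1) := by
  have h := Z.prod_tail ((univ : Finset (Fin m)) ×ˢ ((univ : Finset (Finset (Fin n))).erase ∅))
    (fun a => cum (r a.1) B) (2 / 2 ^ (B * (B + 1) / 2)) (fun a _ => (cum_bd _ _).1)
    (fun a _ => (cum_bd _ _).2) fun a _ => cum_tail _ _
  rw [card_product, card_univ, Fintype.card_fin, card_erase] at h
  refine h.trans (le_of_eq ?_)
  rw [prod_product]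
  simp only [prod_const, card_erase]
  rw [Finset.prod_pow]

lemma cum_up (r B : ℕ) : cum r B ≤ 1 - kappa / 2 ^ ((B + 1) * (B + 2) / 2) := Z.kc_up r B

lemma AtLeast.le {N n : ℕ} {P : (Fin n → ℕ) → Prop} {q q' : ℝ} {f : ℕ} (h : AtLeast N P q f)
    (hq : q' ≤ q) : AtLeast N P q' f := ⟨h.1, h.2.1, hq.trans h.2.2⟩

end proof

/-- **Main theorem.** `M = m (2 ^ n - 1)`. (1) If `2 M / 2 ^ (B (B + 1) / 2) < ε`, then for ALL `m`-tuples of
elliptic curves as above, for almost all squarefree `f` prime to `2 N`, for all but a proportion `ε` of the tuples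
of divisors of `f` all the ranks are bounded by `B`. (2) If `exp(-κ M / 2 ^ ((B + 1) (B + 2) / 2)) < ε`, then for all
but a proportion `ε` of the tuples some 2-Selmer rank is larger than `B`. (3) The limit law of the largest
2-Selmer rank: for every `B` the proportion of the tuples with the bound `B` is at least `q - δ`, and the
proportion of the tuples for which some 2-Selmer rank is larger than `B` is at least `1 - q - δ`,
`q = (∏_k cum(r_k, B)) ^ (2 ^ n - 1)`, `r_k` the 2-Selmer rank of `E_k`, which exists. (4) The tail. -/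
theorem result (m n : ℕ) :
    (∀ (B : ℕ) (ε : ℝ), (m * (2 ^ n - 1) : ℕ) * (2 / 2 ^ (B * (B + 1) / 2) : ℝ) < ε →
      ∀ N : ℕ, 0 < N → ∀ e : Fin m → Fin 3 → ℤ, (∀ k, Kane N (e k)) →
      (∀ k k', k ≠ k' → Apart (e k) (e k')) →
        AlmostAll (Conductor N) (AtLeast N (n := n) (Bounded e B) (1 - ε))) ∧
    (∀ (B : ℕ) (ε : ℝ),
      Real.exp (-(kappa * (m * (2 ^ n - 1) : ℕ) / 2 ^ ((B + 1) * (B + 2) / 2))) < ε →
      ∀ N : ℕ, 0 < N → ∀ e : Fin m → Fin 3 → ℤ, (∀ k, Kane N (e k)) →
      (∀ k k', k ≠ k' → Apart (e k) (e k')) →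
        AlmostAll (Conductor N) (AtLeast N (n := n) (Exceeded e B) (1 - ε))) ∧
    (∀ N : ℕ, 0 < N → ∀ e : Fin m → Fin 3 → ℤ, (∀ k, Kane N (e k)) →
      (∀ k k', k ≠ k' → Apart (e k) (e k')) → ∃ r : Fin m → ℕ, (∀ k, SelRank (e k) (r k)) ∧
        ∀ B : ℕ, ∀ δ : ℝ, 0 < δ →
          AlmostAll (Conductor N) (AtLeast N (n := n) (Bounded e B)
            ((∏ k, cum (r k) B) ^ (2 ^ n - 1) - δ)) ∧
          AlmostAll (Conductor N) (AtLeast N (n := n) (Exceeded e B)
            (1 - (∏ k, cum (r k) B) ^ (2 ^ n - 1) - δ))) ∧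
    (∀ r B : ℕ, 1 - 2 / 2 ^ (B * (B + 1) / 2) ≤ cum r B ∧
      cum r B ≤ 1 - kappa / 2 ^ ((B + 1) * (B + 2) / 2)) := by
  refine ⟨fun B ε hε N hN e he ha => ?_, fun B ε hε N hN e he ha => ?_, fun N hN e he ha => ?_,
    fun r B => ⟨cum_tail r B, cum_up r B⟩⟩
  · choose r hr using fun k => Pool.Agent.N869.GK.Z.exists_selrank (he k)
    refine (main hN he ha hr n B (sub_pos.2 hε)).mono fun f _ h => h.le ?_
    have h1 := prod_ge r n B
    linarith
  · choose r hr using fun k => Pool.Agent.N869.GK.Z.exists_selrank (he k)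
    refine (main' hN he ha hr n B (sub_pos.2 hε)).mono fun f _ h => h.le ?_
    have h1 := Pool.Agent.N869.GK.Z.pow_exp r B (2 ^ n - 1)
    have h2 : (∏ k, cum (r k) B) ^ (2 ^ n - 1) ≤
        Real.exp (-(kappa * (m * (2 ^ n - 1) : ℕ) / 2 ^ ((B + 1) * (B + 2) / 2))) := h1
    linarith
  · choose r hr using fun k => Pool.Agent.N869.GK.Z.exists_selrank (he k)
    exact ⟨r, hr, fun B δ hδ => ⟨main hN he ha hr n B hδ, main' hN he ha hr n B hδ⟩⟩

end Pool.Agent.Results.MP_157626_nt.UniversalBounds
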